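import Mathlib
import Pool.Agent.Q7.RA.Dbl

/-!
# Double zeros of Dedekind zeta functions at the central point

`M/K` is a Galois extension of number fields with group `M ≃ₐ[K] M`, an arbitrary finite group.
`Irr G` is the set of irreducible complex characters of `G`.

`zetaOrder F s₀` is the order at `s₀` of the Dedekind zeta function of the number field `F`, and
`artinOrder χ s₀` the order at `s₀` of the Artin L-function `L(s, χ)` of the character `χ` of the Galois
group of `M/K`: the Euler product for `Re s > 1` over the primes of `K` which are unramified in `M`
(`Pool.Agent.Q92.AR.artinL`), continued meromorphically to `ℂ`; the finitely many other Euler factors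
have no zeros and poles for `Re s > 0`.

The continuations exist by Artin's reciprocity law, Hecke's theorem and Brauer's induction theorem,
and the orders at `1/2` of the zeta functions are even by their functional equation; these theorems
are proved in the library `Pool.Agent.Q92.AR`. `LanglandsTunnell M s₀` is the theorem of Langlands and
Tunnell for the subgroups of the Galois group; it is used in part (4) only, parts (1) to (3) are proved
without assumption.

For integers `n χ`, `χ ∈ Irr G`:
`QuadraticDouble n`: `n μ = 2` for one linear character `μ` with `μ ^ 2 = 1`, all other `n χ` are `0`;
`SymplecticSimple n`: `n χ₀ = 1` for one symplectic `χ₀` (real valued with Frobenius-Schur indicator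
`-1`), all other `n χ` are `0` except for at most two symplectic `χ` with `n χ = -1`;
`ConjugateSimple n`: `n χ₀ = n χ₁ = 1` for one `χ₀` with nonreal values and its conjugate `χ₁`, all
other `n χ` are `0` except for at most one symplectic `χ` with `n χ = -1`;
`SymplecticDegreeTwo n`: `n χ₀ = 1` for one symplectic `χ₀` of degree two, all other `n χ` are `0`;
`LinearPair n`: `n l = n l⁻¹ = 1` for one linear character `l` with `l ^ 2 ≠ 1`, all other `n χ` are
`0`. `OneSign n 1`: every `t` for which `t ^ 2` is in the kernels of the `χ` with `n χ ≠ 0` (for example
every involution) acts by one and the same sign in all these `χ`. `NoSingleInvolution G`: no quotient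
of `res G` has exactly one involution, where `res G` is the smallest normal subgroup with solvable
quotient.
-/

set_option autoImplicit false

open Pool.Agent.H541R3.ART Pool.Agent.Y788.V Pool.Agent.Q7.RA Pool.Agent.Q92.AR

/-- Let `M/K` be a Galois extension of number fields with an arbitrary group `G`, and suppose that the
Dedekind zeta function of `M` has a zero of order two at `s = 1/2`. Let `n χ` be the order of `L(s, χ)`
at `1/2`.
(1) One of the following holds: a linear character `μ` with `μ ^ 2 = 1` has a double zero and all
other `L(1/2, χ)` are finite and nonzero; or one symplectic `χ₀` has a simple zero and all other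
`L(1/2, χ)` are finite and nonzero except for at most two simple poles; or one `χ₀` with nonreal values
and its conjugate have simple zeros and all other `L(1/2, χ)` are finite and nonzero except for at
most one simple pole. Poles occur only for symplectic characters. In particular `L(1/2, χ)` is finite
and nonzero for all orthogonal `χ` of degree greater than one.
(2) Every involution of `G` acts by one and the same sign in all `χ` with a zero or a pole at `1/2`.
(3) If `G` is generated by involutions, the first case of (1) holds.
(4) If no quotient of `res G` has exactly one involution (for example if `G` is solvable, simple or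
symmetric), then, by the theorem of Langlands and Tunnell, one of the following holds: the first
case of (1); or there is one symplectic character of degree two with a simple zero, and all other
`L(1/2, χ)` are finite and nonzero; or there is a linear character `l` with `l ^ 2 ≠ 1` such that `l`
and `l⁻¹` have simple zeros, and all others are finite and nonzero at `1/2`. -/
theorem Pool.Agent.Results.MP_3b6604_nt.CentralDoubleZerosAllGroups.result
    (K M : Type) [Field K] [NumberField K] [Field M] [NumberField M] [Algebra K M] [IsGalois K M]
    (h2 : zetaOrder M (1 / 2) = ((2 : ℕ) : WithTop ℤ)) :
    ∃ n : ((M ≃ₐ[K] M) → ℂ) → ℤ,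
      (∀ χ ∈ Irr (M ≃ₐ[K] M), artinOrder χ (1 / 2) = ((n χ : ℤ) : WithTop ℤ)) ∧
      (QuadraticDouble n ∨ SymplecticSimple n ∨ ConjugateSimple n) ∧
      OneSign n 1 ∧
      (Subgroup.closure {t : M ≃ₐ[K] M | t * t = 1} = ⊤ → QuadraticDouble n) ∧
      (NoSingleInvolution (M ≃ₐ[K] M) → LanglandsTunnell (K := K) M (1 / 2) →
        QuadraticDouble n ∨ SymplecticDegreeTwo n ∨ LinearPair n) := by
  have hC := continued (K := K) (M := M) half_pos' half_ne
  obtain ⟨h3, h4, h5, h6⟩ := central_cases (ArtinData.ofExtension hC) (reflects_ofExtension hC)
    (fun H => lin_even hC H 1 fun _ => by simp)
    ((data_bot (K := K) (M := M) half_pos' half_ne).trans h2)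
  exact ⟨(ArtinData.ofExtension hC).ord, fun χ hχ => ((ArtinData.ofExtension hC).coe_ord hχ).symm,
    h3, h4, h5, fun h7 hLT => h6 h7 ⟨LTData.ofExtension hC hLT⟩⟩
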