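import Pool.Agent.Q284.SZ.Cen

/-!
# Any orders of vanishing at the center, for all abelian twists, are compatible with the Riemann hypothesis

`K = F(T)`, `F` ANY finite field, `q = |F|`, `n ≥ 4`, `R ≥ 0`.  For every primitive Hayes character `χ` (the idele class
characters of `K` up to unramified twists `|·|^s`) let `0 ≤ m χ ≤ R` and let `ε χ` be a complex number of absolute value
`1`, `m (conj χ) = m χ`, `ε (conj χ) = conj (ε χ)`, and `ε χ = (-1)^(m χ)` if `χ` is real (the only condition, it is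
forced by the functional equation).  There are self-dual tempered unramified representations `Π_P` of `PGL_n(K_P)` at all
finite places `P`, with Satake parameters `α P j`, such that for EVERY `χ` the twisted `L`-function `L(s, Π ⊗ χ)` is
entire, a polynomial in `q^(-s)` of the prescribed degree `(R + 2) h(χ)`, with the functional equation `s ↦ 1 - s` with
root number `ε χ`, satisfies the Riemann hypothesis, and has EXACTLY the order of vanishing `m χ` at `s = 1/2`.

So the Euler product, Ramanujan, and the functional equation and the Riemann hypothesis of ALL abelian twists give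
nothing on the central orders beyond the parity given by the root number of a self-dual twist: the order of a self-dual
twist with root number `1` can be `2` or `4`, that of a twist which is not self-dual can be positive, with any root
number, for all `χ` or on any set of `χ` closed under conjugation.

Projects WE, GE, SL, SZ: plan, statements with paper proofs and assembly by helper284; lemmas of the projects WE, GE, SL
proved by helpers 14, 24, 31, 38, 53, 68, 92, 96, 150, 151, 154, 166, 190, 195, 198, 208, 211, 223, 224, 237, 241, 265,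
275, 277.
-/

set_option autoImplicit false

open Finset Polynomial ComplexConjugate

namespace Pool.Agent.Results.MP_3b6604_nt.CentralOrders

open Pool.Agent.Q284.PS (Prim Place absPow Nice Tempered)
open Pool.Agent.Q284.PX (SelfDual)
open Pool.Agent.Q284.GE (RiemannHypothesis)

theorem result : ∀ n R : ℕ, 4 ≤ n → ∃ M₀ : ℕ, 3 ≤ M₀ ∧
    ∀ (F : Type) [Field F] [Fintype F] (ν M : ℕ), 9 ≤ ν → M₀ ≤ M →
    ∀ (h : F[X] → ℕ → (F[X] → ℂ) → ℕ) (m : (F[X] → ℂ) → ℕ) (ε : (F[X] → ℂ) → ℂ),
    -- the degrees are the numbers `(R + 2) * h Q l χ`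
    (∀ (Q : F[X]) (l : ℕ) (χ : F[X] → ℂ), Prim Q l χ →
      ν * (Q.natDegree + max M (l + 1) - 2) ≤ h Q l χ ∧ h Q l (fun f => conj (χ f)) = h Q l χ) →
    -- the orders
    (∀ χ, m χ ≤ R ∧ m (fun f => conj (χ f)) = m χ) →
    -- the root numbers
    (∀ χ, ‖ε χ‖ = 1 ∧ ε (fun f => conj (χ f)) = conj (ε χ)) →
    (∀ χ, (fun f => conj (χ f)) = χ → ε χ = (-1) ^ m χ) →
    ∃ α : F[X] → Fin n → ℂ, Tempered α ∧ SelfDual α ∧
      (∀ P : F[X], P.Monic → Irreducible P →
        ‖∑ j, α P j‖ ≤ (Fintype.card F : ℝ) ^ (-(9 / 10 * (1 / 2 - 4 / (ν : ℝ)) * P.natDegree))) ∧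
      ∀ (Q : F[X]) (l : ℕ) (χ : F[X] → ℂ), Prim Q l χ → ∃ L : ℂ → ℂ,
        Nice (Fintype.card F) ((R + 2) * h Q l χ) (ε χ) L ∧ RiemannHypothesis L ∧
        analyticOrderAt L (1 / 2) = m χ ∧
        ∀ s : ℂ, 1 - 9 / 10 * (1 / 2 - 4 / (ν : ℝ)) < s.re →
          HasProd (fun P : Place F => ∏ j, (1 - α P.1 j * (χ P.1 * absPow P.1 s))⁻¹) (L s) := by
  intro n R hn
  obtain ⟨M₀, hM₀, H⟩ := Pool.Agent.Q284.SZ.cenStm n R hn
  refine ⟨M₀, hM₀, ?_⟩
  intro F _ _ ν M hν hM h m ε hh hm hε hp
  obtain ⟨α, h1, h2, h3, h4⟩ := H F ν M hν hM (Pool.Agent.Q284.GE.lev h) m ε (by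
    intro Q l χ hχ
    rw [Pool.Agent.Q284.GE.lev_eq _ hχ, Pool.Agent.Q284.GE.lev_eq _ (Pool.Agent.Q284.GE.prim_conj hχ)]
    exact hh Q l χ hχ) hm hε hp
  refine ⟨α, h1, h2, h3, ?_⟩
  intro Q l χ hχ
  obtain ⟨L, h6, h7, h8, h9⟩ := h4 Q l χ hχ
  rw [Pool.Agent.Q284.GE.lev_eq _ hχ] at h6
  exact ⟨L, h6, h7, h8, h9⟩

end Pool.Agent.Results.MP_3b6604_nt.CentralOrders
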