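import Pool.Agent.Q253.NF.G8

set_option autoImplicit false
set_option linter.unusedSectionVars false

/-!
# The central orders of Artin L-functions are means over primes

`M/K` is any Galois extension of number fields with group `G` (Q1 is the case `K = ℚ`), `φ_v` a Frobenius element at each unramified
prime `v` of `K`.  For an irreducible character `χ` let `P_χ(u)` be the sum over the powers of the unramified primes
`∑ χ(φ_v^k) log q_v q_v^(-k/2) exp (-|u - k log q_v|)`, without the main term `(8/3) e^(u/2)` if `χ = 1`.  Nothing is assumed.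

1. `L(s, χ)` has no zeros and no poles with `Re s > 1/2` if and only if the mean square of `P_χ` is bounded.
2. In this case the mean of `-P_χ(u) e^(-itu)` tends to `2/(1+t²)` times the order of `L(s, χ)` at `1/2 + it`, for all real `t`.
3. For every integer `m`: `L(s, χ)` has no zeros and no poles with `Re s > 1/2` and the order `m` at `s = 1/2` if and only if the mean square of
   `P_χ` is bounded and the mean of `-P_χ` tends to `2m`.
4. Artin's conjecture (`Re s > 0`) and the Riemann hypothesis hold for `L(s, χ)` if and only if the mean square is bounded and the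
   lower limits of the real parts of the means in 2. are `≥ 0`.
5. Artin's conjecture and the Riemann hypothesis for all `χ`, `L(1/2, χ) ≠ 0` for all `χ ≠ 1` which are not symplectic, and
   central order `0` or `1` for the symplectic `χ`, are together equivalent to the conditions in 4. for all `χ` and the bounds `0`
   (`χ ≠ 1` not symplectic) and `2` (`χ` symplectic) for the upper limits of the mean of `-P_χ`.
-/

namespace Pool.Agent.Results.MP_3b6604_nt.CentralOrdersAreMeans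

open MeasureTheory Filter Topology Set Complex NumberField IsDedekindDomain

/-- `f` is a meromorphic continuation of `g` from `Re s > 1` to `ℂ` -/
def Continues (f g : ℂ → ℂ) : Prop := MeromorphicOn f univ ∧ ∀ s : ℂ, 1 < s.re → f s = g s

/-- the irreducible complex characters of a group -/
def Irr (G : Type) [Group G] : Set (G → ℂ) :=
  {χ | ∃ (n : ℕ) (ρ : Representation ℂ G (Fin n → ℂ)), ρ.IsIrreducible ∧ χ = ρ.character}

/-- the prime `v` of `K` is unramified in `F`: no prime `w` above `v` has `w² ∣ v` -/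
def Unramified (F : Type) {K : Type} [Field K] [NumberField K] [Field F] [NumberField F] [Algebra K F]
    (v : HeightOneSpectrum (𝓞 K)) : Prop :=
  ∀ w : HeightOneSpectrum (𝓞 F), w.under (𝓞 K) = v → ¬ v.asIdeal.map (algebraMap (𝓞 K) (𝓞 F)) ≤ w.asIdeal ^ 2

section
variable {K M : Type} [Field K] [NumberField K] [Field M] [NumberField M] [Algebra K M]

/-- `σ` is a Frobenius element at the prime `v` of `K` -/
def IsFrobenius (v : HeightOneSpectrum (𝓞 K)) (σ : M ≃ₐ[K] M) : Prop :=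
  ∃ w : Ideal (𝓞 M), w.IsMaximal ∧ w.comap (algebraMap (𝓞 K) (𝓞 M)) = v.asIdeal ∧
    ∀ x : 𝓞 M, ∃ y ∈ w, (y : M) = σ x - (x : M) ^ Ideal.absNorm v.asIdeal

variable (φ : HeightOneSpectrum (𝓞 K) → M ≃ₐ[K] M)

open Classical in
/-- the Artin L-function of `χ` for `Re s > 1` without the Euler factors at the ramified primes, as the exponential of its
logarithm `∑ χ(φ_v^(k+1)) / ((k+1) q_v^((k+1) s))` (`x.1 = v` unramified, `x.2 = k`) -/
noncomputable def artinL (χ : (M ≃ₐ[K] M) → ℂ) (s : ℂ) : ℂ :=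
  Complex.exp (∑' x : HeightOneSpectrum (𝓞 K) × ℕ, if Unramified M x.1 then χ (φ x.1 ^ (x.2 + 1)) /
    (((x.2 + 1 : ℕ) : ℂ) * (Ideal.absNorm x.1.asIdeal : ℂ) ^ (((x.2 + 1 : ℕ) : ℂ) * s)) else 0)

open Classical in
/-- the order at `s` of the meromorphic continuation of `L(s, χ)` (negative for poles) -/
noncomputable def ordL (χ : (M ≃ₐ[K] M) → ℂ) (s : ℂ) : ℤ :=
  if h : ∃ f, Continues f (artinL φ χ) then (meromorphicOrderAt h.choose s).untop₀ else 0

open Classical in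
/-- `P_χ(u)`: the sum over the powers `v^(k+1)` of the unramified primes (`q = N v`) of
`χ(φ_v^(k+1)) log q · q^(-(k+1)/2) · exp (-|u - (k+1) log q|)`, minus `(8/3) e^(u/2)` if `χ` is trivial -/
noncomputable def P (χ : (M ≃ₐ[K] M) → ℂ) (u : ℝ) : ℂ :=
  (∑' x : HeightOneSpectrum (𝓞 K) × ℕ, if Unramified M x.1 then χ (φ x.1 ^ (x.2 + 1)) *
    ((Real.log (Ideal.absNorm x.1.asIdeal) *
      Real.exp (-(((x.2 : ℝ) + 1) * Real.log (Ideal.absNorm x.1.asIdeal) / 2)) *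
      Real.exp (-|u - ((x.2 : ℝ) + 1) * Real.log (Ideal.absNorm x.1.asIdeal)|) : ℝ) : ℂ) else 0) -
    if ∀ g, χ g = 1 then ((8 / 3 * Real.exp (u / 2) : ℝ) : ℂ) else 0

/-- `L(s, χ)` has no zeros and no poles with `Re s > 1/2` (except the pole at `s = 1` of the trivial character) -/
def OnTheLine (χ : (M ≃ₐ[K] M) → ℂ) : Prop :=
  ∀ s : ℂ, 1 / 2 < s.re → (s = 1 → ¬ ∀ g, χ g = 1) → ordL φ χ s = 0

/-- Artin's conjecture for `χ` in `Re s > 0`: no poles, except at `s = 1` for the trivial character -/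
def Artin (χ : (M ≃ₐ[K] M) → ℂ) : Prop :=
  ∀ s : ℂ, 0 < s.re → (s = 1 → ¬ ∀ g, χ g = 1) → 0 ≤ ordL φ χ s

/-- the Riemann hypothesis for `χ`: no zeros with `Re s > 1/2` -/
def Riemann (χ : (M ≃ₐ[K] M) → ℂ) : Prop :=
  ∀ s : ℂ, 1 / 2 < s.re → (s = 1 → ¬ ∀ g, χ g = 1) → ordL φ χ s ≤ 0

/-- `χ` is symplectic: its Frobenius-Schur indicator is `-1` -/
def Symplectic {G : Type} [Group G] (χ : G → ℂ) : Prop := ∑ᶠ g : G, χ (g ^ 2) = -(Nat.card G : ℂ)

/-- the mean square of `P_χ` is bounded -/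
def BoundedMeanSquare (χ : (M ≃ₐ[K] M) → ℂ) : Prop :=
  ∃ C : ℝ, ∀ᶠ U : ℝ in atTop, (1 / U) * ∫ u in (0 : ℝ)..U, ‖P φ χ u‖ ^ 2 ≤ C

/-- the mean of `-P_χ(u) e^(-itu)` over `[0, U]` -/
noncomputable def mean (χ : (M ≃ₐ[K] M) → ℂ) (t U : ℝ) : ℂ :=
  ((1 / U : ℝ) : ℂ) * ∫ u in (0 : ℝ)..U, -P φ χ u * cexp (-(I * t * u))

/-- the lower limits of the real parts of the means are `≥ 0`, for all `t` -/
def LowerMeans (χ : (M ≃ₐ[K] M) → ℂ) : Prop :=
  ∀ t ε : ℝ, 0 < ε → ∀ᶠ U : ℝ in atTop, -ε ≤ (mean φ χ t U).re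

/-- the upper limit of the real part of the mean of `-P_χ` is at most `c` -/
def UpperMean (χ : (M ≃ₐ[K] M) → ℂ) (c : ℝ) : Prop :=
  ∀ ε : ℝ, 0 < ε → ∀ᶠ U : ℝ in atTop, (mean φ χ 0 U).re ≤ c + ε

variable [IsGalois K M]

lemma artinL_eq {χ : (M ≃ₐ[K] M) → ℂ} (hφ : ∀ v, Unramified M v → IsFrobenius v (φ v)) (hχ : χ ∈ Irr (M ≃ₐ[K] M)) :
    artinL φ χ = Pool.Agent.Q92.AR.artinL M χ := by
  classical
  funext s
  unfold artinL Pool.Agent.Q92.AR.artinL
  congr 1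
  refine tsum_congr fun x => ?_
  unfold Pool.Agent.Q92.AR.artTerm
  by_cases hx : Unramified M x.1
  · rw [if_pos hx, if_pos (show Pool.Agent.Q92.AR.Unramified M x.1 from hx),
      Pool.Agent.Q284.SP.class_frob (fun g y => Pool.Agent.Q253.NF.G.irr_conj hχ g y) hx (hφ _ hx)]
  · rw [if_neg hx, if_neg (show ¬ Pool.Agent.Q92.AR.Unramified M x.1 from hx)]

lemma ordL_eq {χ : (M ≃ₐ[K] M) → ℂ} (hφ : ∀ v, Unramified M v → IsFrobenius v (φ v)) (hχ : χ ∈ Irr (M ≃ₐ[K] M)) (s : ℂ) :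
    ordL φ χ s = Pool.Agent.Q253.NF.G.ordL χ s := by
  unfold ordL Pool.Agent.Q253.NF.G.ordL
  rw [artinL_eq φ hφ hχ]
  rfl

lemma P_eq {χ : (M ≃ₐ[K] M) → ℂ} (hφ : ∀ v, Unramified M v → IsFrobenius v (φ v)) (hχ : χ ∈ Irr (M ≃ₐ[K] M)) (u : ℝ) :
    P φ χ u = Pool.Agent.Q253.NF.G.F χ u := by
  classical
  unfold P Pool.Agent.Q253.NF.G.F Pool.Agent.Q253.NF.ks
  congr 1
  refine tsum_congr fun x => ?_
  by_cases hx : Unramified M x.1
  · rw [if_pos hx, if_pos (show x.1 ∈ {v : HeightOneSpectrum (𝓞 K) | Pool.Agent.Q92.AR.Unramified M v} from hx),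
      Pool.Agent.Q284.SP.class_frob (fun g y => Pool.Agent.Q253.NF.G.irr_conj hχ g y) hx (hφ _ hx)]
  · rw [if_neg hx, if_neg (show ¬ x.1 ∈ {v : HeightOneSpectrum (𝓞 K) | Pool.Agent.Q92.AR.Unramified M v} from hx)]

section
variable {χ : (M ≃ₐ[K] M) → ℂ}

lemma off_iff (hφ : ∀ v, Unramified M v → IsFrobenius v (φ v)) (hχ : χ ∈ Irr (M ≃ₐ[K] M)) :
    OnTheLine φ χ ↔ Pool.Agent.Q253.NF.G.Off χ :=
  forall_congr' fun s => by rw [ordL_eq φ hφ hχ]

/-- everything for one character -/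
lemma base (hφ : ∀ v, Unramified M v → IsFrobenius v (φ v)) (hχ : χ ∈ Irr (M ≃ₐ[K] M)) :
    (OnTheLine φ χ ↔ BoundedMeanSquare φ χ) ∧
    (OnTheLine φ χ → ∀ t : ℝ, Tendsto (mean φ χ t) atTop
      (𝓝 (((ordL φ χ (1 / 2 + t * I) : ℝ) * (2 / (1 + t ^ 2)) : ℝ) : ℂ))) := by
  obtain ⟨h1, h2⟩ := Pool.Agent.Q253.NF.G.one hχ
  have hm : ∀ U, (1 / U) * ∫ u in (0 : ℝ)..U, ‖P φ χ u‖ ^ 2 = Pool.Agent.Q253.NF.G.m χ U := by
    intro U
    unfold Pool.Agent.Q253.NF.G.m
    simp only [P_eq φ hφ hχ]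
  refine ⟨?_, fun hO t => ?_⟩
  · rw [off_iff φ hφ hχ, h1]
    unfold BoundedMeanSquare
    simp only [hm]
  · obtain ⟨-, -, -, h3, -⟩ := h2 ((off_iff φ hφ hχ).1 hO)
    have h4 := h3 t
    unfold mean
    simp only [P_eq φ hφ hχ]
    rw [ordL_eq φ hφ hχ]
    exact h4

/-- in terms of the order on the line -/
lemma line (hφ : ∀ v, Unramified M v → IsFrobenius v (φ v)) (hχ : χ ∈ Irr (M ≃ₐ[K] M)) :
    (Artin φ χ ∧ Riemann φ χ) ↔ (OnTheLine φ χ ∧ ∀ t : ℝ, 0 ≤ ordL φ χ (1 / 2 + t * I)) := by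
  constructor
  · rintro ⟨hA, hR⟩
    refine ⟨fun s hs h1 => le_antisymm (hR s hs h1) (hA s (by linarith) h1), fun t => ?_⟩
    exact hA (1 / 2 + t * I) (by simp) (fun h => by
      have := congrArg Complex.re h
      norm_num at this)
  · rintro ⟨hO, hN⟩
    refine ⟨fun s hs h1 => ?_, fun s hs h1 => (hO s hs h1).le⟩
    rcases lt_trichotomy s.re (1 / 2) with h2 | h2 | h2
    · obtain ⟨A⟩ := Pool.Agent.Q253.NF.G.exists_artD hχ
      have h3 := (Pool.Agent.Q253.NF.G.hyp_iff A hχ).2 ((off_iff φ hφ hχ).1 hO) (s - 1 / 2) (by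
        rw [Complex.sub_re]
        norm_num
        intro h
        linarith)
      rw [ordL_eq φ hφ hχ, Pool.Agent.Q253.NF.G.ordL_eq A hχ hs, h3, if_neg]
      · simp
      · rintro rfl
        norm_num at h2
    · have h3 : s = 1 / 2 + (s.im : ℂ) * I := by
        apply Complex.ext
        · simp [h2]
        · simp
      rw [h3]
      exact hN s.im
    · exact (hO s h2 h1).ge

lemma mean_zero (hφ : ∀ v, Unramified M v → IsFrobenius v (φ v)) (hχ : χ ∈ Irr (M ≃ₐ[K] M)) (hO : OnTheLine φ χ) :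
    Tendsto (mean φ χ 0) atTop (𝓝 ((2 * (ordL φ χ (1 / 2) : ℝ) : ℝ) : ℂ)) := by
  have h1 := (base φ hφ hχ).2 hO 0
  have e1 : (1 / 2 + ((0 : ℝ) : ℂ) * I) = 1 / 2 := by simp
  rw [e1] at h1
  have e2 : ((ordL φ χ (1 / 2) : ℝ) * (2 / (1 + (0 : ℝ) ^ 2))) = 2 * (ordL φ χ (1 / 2) : ℝ) := by
    norm_num
    ring
  rw [e2] at h1
  exact h1

lemma re_tendsto {f : ℝ → ℂ} {x : ℝ} (h : Tendsto f atTop (𝓝 (x : ℂ))) : Tendsto (fun U => (f U).re) atTop (𝓝 x) :=
  (Complex.continuous_re.tendsto _).comp h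

end

end

/-- **The central orders of Artin L-functions are means over primes.** -/
theorem result (K M : Type) [Field K] [NumberField K] [Field M] [NumberField M] [Algebra K M] [IsGalois K M]
    (φ : HeightOneSpectrum (𝓞 K) → M ≃ₐ[K] M) (hφ : ∀ v, Unramified M v → IsFrobenius v (φ v)) :
    (∀ χ ∈ Irr (M ≃ₐ[K] M),
      (∃ f, Continues f (artinL φ χ)) ∧
      (OnTheLine φ χ ↔ BoundedMeanSquare φ χ) ∧
      (OnTheLine φ χ → ∀ t : ℝ, Tendsto (mean φ χ t) atTop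
        (𝓝 (((ordL φ χ (1 / 2 + t * I) : ℝ) * (2 / (1 + t ^ 2)) : ℝ) : ℂ))) ∧
      (∀ m : ℤ, (OnTheLine φ χ ∧ ordL φ χ (1 / 2) = m) ↔
        (BoundedMeanSquare φ χ ∧ Tendsto (mean φ χ 0) atTop (𝓝 (2 * (m : ℂ))))) ∧
      ((Artin φ χ ∧ Riemann φ χ) ↔ (BoundedMeanSquare φ χ ∧ LowerMeans φ χ))) ∧
    ((∀ χ ∈ Irr (M ≃ₐ[K] M), Artin φ χ ∧ Riemann φ χ ∧
        ((¬ ∀ g, χ g = 1) → ¬ Symplectic χ → ordL φ χ (1 / 2) = 0) ∧
        (Symplectic χ → ordL φ χ (1 / 2) = 0 ∨ ordL φ χ (1 / 2) = 1)) ↔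
      ∀ χ ∈ Irr (M ≃ₐ[K] M), BoundedMeanSquare φ χ ∧ LowerMeans φ χ ∧
        ((¬ ∀ g, χ g = 1) → ¬ Symplectic χ → UpperMean φ χ 0) ∧ (Symplectic χ → UpperMean φ χ 2)) := by
  have lower : ∀ χ ∈ Irr (M ≃ₐ[K] M), OnTheLine φ χ → (LowerMeans φ χ ↔ ∀ t : ℝ, 0 ≤ ordL φ χ (1 / 2 + t * I)) := by
    intro χ hχ hO
    have h2 := (base φ hφ hχ).2 hO
    constructor
    · intro h t
      have h3 := re_tendsto (h2 t)
      have h4 : 0 ≤ (ordL φ χ (1 / 2 + t * I) : ℝ) * (2 / (1 + t ^ 2)) := by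
        refine le_of_forall_pos_le_add fun ε hε => ?_
        have := ge_of_tendsto h3 (h t ε hε)
        linarith
      have h5 : (0 : ℝ) < 2 / (1 + t ^ 2) := by positivity
      have h6 : (0 : ℝ) ≤ (ordL φ χ (1 / 2 + t * I) : ℝ) := by
        by_contra hcon
        push Not at hcon
        have := mul_neg_of_neg_of_pos hcon h5
        linarith
      exact_mod_cast h6
    · intro h t ε hε
      have h3 := re_tendsto (h2 t)
      have h4 : 0 ≤ (ordL φ χ (1 / 2 + t * I) : ℝ) * (2 / (1 + t ^ 2)) :=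
        mul_nonneg (by exact_mod_cast h t) (by positivity)
      exact (h3.eventually_const_lt (by linarith : -ε < _)).mono fun U hU => hU.le
  have upper : ∀ χ ∈ Irr (M ≃ₐ[K] M), OnTheLine φ χ → ∀ m : ℤ, (UpperMean φ χ (2 * (m : ℝ)) ↔ ordL φ χ (1 / 2) ≤ m) := by
    intro χ hχ hO m
    have h3 := re_tendsto (mean_zero φ hφ hχ hO)
    constructor
    · intro h
      have h4 : 2 * (ordL φ χ (1 / 2) : ℝ) ≤ 2 * (m : ℝ) := by
        refine le_of_forall_pos_le_add fun ε hε => ?_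
        exact le_of_tendsto h3 (h ε hε)
      have h5 : (ordL φ χ (1 / 2) : ℝ) ≤ (m : ℝ) := by linarith
      exact_mod_cast h5
    · intro h ε hε
      have h5 : (ordL φ χ (1 / 2) : ℝ) ≤ (m : ℝ) := by exact_mod_cast h
      exact (h3.eventually_lt_const (by linarith : _ < 2 * (m : ℝ) + ε)).mono fun U hU => hU.le
  have four : ∀ χ ∈ Irr (M ≃ₐ[K] M), ((Artin φ χ ∧ Riemann φ χ) ↔ (BoundedMeanSquare φ χ ∧ LowerMeans φ χ)) := by
    intro χ hχ
    rw [line φ hφ hχ, ← (base φ hφ hχ).1]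
    exact and_congr_right fun hO => (lower χ hχ hO).symm
  refine ⟨fun χ hχ => ⟨?_, (base φ hφ hχ).1, (base φ hφ hχ).2, fun m => ?_, four χ hχ⟩, ?_⟩
  · rw [artinL_eq φ hφ hχ]
    exact Pool.Agent.Q253.NF.G.exists_cont hχ
  · rw [← (base φ hφ hχ).1]
    refine and_congr_right fun hO => ?_
    have h3 := mean_zero φ hφ hχ hO
    constructor
    · rintro rfl
      have e : ((2 * (ordL φ χ (1 / 2) : ℝ) : ℝ) : ℂ) = 2 * ((ordL φ χ (1 / 2) : ℤ) : ℂ) := by push_cast; ring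
      rw [← e]
      exact h3
    · intro h
      have h4 := tendsto_nhds_unique h3 h
      have h5 : ((ordL φ χ (1 / 2) : ℤ) : ℂ) = ((m : ℤ) : ℂ) := by
        have h6 : (2 : ℂ) * ((ordL φ χ (1 / 2) : ℤ) : ℂ) = 2 * ((m : ℤ) : ℂ) := by
          rw [← h4]
          push_cast
          ring
        exact mul_left_cancel₀ two_ne_zero h6
      exact_mod_cast h5
  · refine forall_congr' fun χ => forall_congr' fun hχ => ?_
    rw [← and_assoc, four χ hχ, and_assoc]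
    refine and_congr_right fun hB => and_congr_right fun hL => ?_
    have hO := (base φ hφ hχ).1.2 hB
    have hN := (lower χ hχ hO).1 hL 0
    have e1 : (1 / 2 + ((0 : ℝ) : ℂ) * I) = 1 / 2 := by simp
    rw [e1] at hN
    have u0 := upper χ hχ hO 0
    have u1 := upper χ hχ hO 1
    norm_num at u0 u1
    rw [u0, u1]
    refine and_congr (forall_congr' fun _ => forall_congr' fun _ => ?_) (forall_congr' fun _ => ?_)
    · omega
    · omega

end Pool.Agent.Results.MP_3b6604_nt.CentralOrdersAreMeans
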