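import Pool.Agent.Q253.NF.G8

set_option autoImplicit false
set_option linter.unusedSectionVars false

/-!
# One inequality for the primes decides the Riemann hypothesis and the linear independence for a Galois extension

`M/K` is any Galois extension of number fields with group `G` (Q1 is the case `K = ℚ`), `φ_v` a Frobenius element at each unramified
prime `v` of `K`.  For an irreducible character `χ` let `P_χ(u)` be the sum over the powers of the unramified primes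
`∑ χ(φ_v^k) log q_v q_v^(-k/2) exp (-|u - k log q_v|)`, without the main term `(8/3) e^(u/2)` if `χ = 1`, and `E = ∑_χ P_χ`.

1. Let Artin's conjecture (`Re s > 0`) hold for `M/K`; this is so if all `χ` are monomial.  Then the Riemann hypothesis for all `L(s, χ)`
   holds if and only if the mean of `exp (-λ E)` is bounded (any `λ > 0`); the Riemann hypothesis, the linear
   independence (i) and the statements (ii), (iii) on the central values together are equivalent to ONE inequality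
   `limsup (mean of exp (-λ E)) ≤ R(λ) g(λ)^n` (any `0 < λ ≤ 1/8`); `n` is the number of the symplectic characters of odd central order
   and `R(λ)` is given by the values of the Dedekind zeta functions of subfields of `M` in the region of absolute convergence.
2. For any `M/K`, Artin's conjecture, the Riemann hypothesis, (i), (ii) and (iii) together are equivalent to this inequality and
   `limsup (mean of ∑ χ(1) |P_χ|²) ≤ V`.
-/

namespace Pool.Agent.Results.MP_3b6604_nt.GaloisOneInequality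

open MeasureTheory Filter Topology Set Complex NumberField IsDedekindDomain

/-- `f` is a meromorphic continuation of `g` from `Re s > 1` to `ℂ` -/
def Continues (f g : ℂ → ℂ) : Prop := MeromorphicOn f univ ∧ ∀ s : ℂ, 1 < s.re → f s = g s

/-- the irreducible complex characters of a group -/
def Irr (G : Type) [Group G] : Set (G → ℂ) :=
  {χ | ∃ (n : ℕ) (ρ : Representation ℂ G (Fin n → ℂ)), ρ.IsIrreducible ∧ χ = ρ.character}

/-- `ξ_F(s) = s (s-1) |d_F|^(s/2) Γ_ℝ(s)^r₁ Γ_ℂ(s)^r₂ ζ_F(s)`, for `Re s > 1` -/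
noncomputable def xi (F : Type) [Field F] [NumberField F] (s : ℂ) : ℂ :=
  s * (s - 1) * ((|(discr F : ℝ)| : ℝ) : ℂ) ^ (s / 2) * Gammaℝ s ^ InfinitePlace.nrRealPlaces F *
    Gammaℂ s ^ InfinitePlace.nrComplexPlaces F * dedekindZeta F s

/-- `V_F = 2 Re ((ξ_F'/ξ_F)(3/2) - (ξ_F'/ξ_F)'(3/2))` -/
noncomputable def V (F : Type) [Field F] [NumberField F] : ℝ :=
  2 * (logDeriv (xi F) (3 / 2) - deriv (logDeriv (xi F)) (3 / 2)).re

/-- the modified Bessel function of order `0` -/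
noncomputable def I0 (w : ℂ) : ℂ := ∑' k : ℕ, (w / 2) ^ (2 * k) / ((Nat.factorial k : ℂ) ^ 2)

/-- the prime `v` of `K` is unramified in `F`: no prime `w` above `v` has `w² ∣ v` -/
def Unramified (F : Type) {K : Type} [Field K] [NumberField K] [Field F] [NumberField F] [Algebra K F]
    (v : HeightOneSpectrum (𝓞 K)) : Prop :=
  ∀ w : HeightOneSpectrum (𝓞 F), w.under (𝓞 K) = v → ¬ v.asIdeal.map (algebraMap (𝓞 K) (𝓞 F)) ≤ w.asIdeal ^ 2

section
variable {K M : Type} [Field K] [NumberField K] [Field M] [NumberField M] [Algebra K M]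

/-- `σ` is a Frobenius element at the prime `v` of `K` -/
def IsFrobenius (v : HeightOneSpectrum (𝓞 K)) (σ : M ≃ₐ[K] M) : Prop :=
  ∃ w : Ideal (𝓞 M), w.IsMaximal ∧ w.comap (algebraMap (𝓞 K) (𝓞 M)) = v.asIdeal ∧
    ∀ x : 𝓞 M, ∃ y ∈ w, (y : M) = σ x - (x : M) ^ Ideal.absNorm v.asIdeal

variable (φ : HeightOneSpectrum (𝓞 K) → M ≃ₐ[K] M)

open Classical in
/-- the Artin L-function of `χ` for `Re s > 1` without the Euler factors at the ramified primes, as the exponential of its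
logarithm `∑ χ(φ_v^(k+1)) / ((k+1) q_v^((k+1) s))` (`x.1 = v` unramified, `x.2 = k`) -/
noncomputable def artinL (χ : (M ≃ₐ[K] M) → ℂ) (s : ℂ) : ℂ :=
  Complex.exp (∑' x : HeightOneSpectrum (𝓞 K) × ℕ, if Unramified M x.1 then χ (φ x.1 ^ (x.2 + 1)) /
    (((x.2 + 1 : ℕ) : ℂ) * (Ideal.absNorm x.1.asIdeal : ℂ) ^ (((x.2 + 1 : ℕ) : ℂ) * s)) else 0)

open Classical in
/-- the order at `s` of the meromorphic continuation of `L(s, χ)` (negative for poles) -/
noncomputable def ordL (χ : (M ≃ₐ[K] M) → ℂ) (s : ℂ) : ℤ :=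
  if h : ∃ f, Continues f (artinL φ χ) then (meromorphicOrderAt h.choose s).untop₀ else 0

open Classical in
/-- `P_χ(u)`: the sum over the powers `v^(k+1)` of the unramified primes (`q = N v`) of
`χ(φ_v^(k+1)) log q · q^(-(k+1)/2) · exp (-|u - (k+1) log q|)`, minus `(8/3) e^(u/2)` if `χ` is trivial -/
noncomputable def P (χ : (M ≃ₐ[K] M) → ℂ) (u : ℝ) : ℂ :=
  (∑' x : HeightOneSpectrum (𝓞 K) × ℕ, if Unramified M x.1 then χ (φ x.1 ^ (x.2 + 1)) *
    ((Real.log (Ideal.absNorm x.1.asIdeal) *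
      Real.exp (-(((x.2 : ℝ) + 1) * Real.log (Ideal.absNorm x.1.asIdeal) / 2)) *
      Real.exp (-|u - ((x.2 : ℝ) + 1) * Real.log (Ideal.absNorm x.1.asIdeal)|) : ℝ) : ℂ) else 0) -
    if ∀ g, χ g = 1 then ((8 / 3 * Real.exp (u / 2) : ℝ) : ℂ) else 0

/-- Artin's conjecture for `M/K` in `Re s > 0`: no poles, except at `s = 1` for the trivial character -/
def Artin : Prop := ∀ χ ∈ Irr (M ≃ₐ[K] M), ∀ s : ℂ, 0 < s.re → (s = 1 → ¬ ∀ g, χ g = 1) → 0 ≤ ordL φ χ s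

/-- the Riemann hypothesis: no zeros with `Re s > 1/2` -/
def Riemann : Prop :=
  ∀ χ ∈ Irr (M ≃ₐ[K] M), ∀ s : ℂ, 1 / 2 < s.re → (s = 1 → ¬ ∀ g, χ g = 1) → ordL φ χ s ≤ 0

/-- the mean of `∑_χ χ(1) |P_χ|²` -/
noncomputable def meanSquare (U : ℝ) : ℝ :=
  (1 / U) * ∫ u in (0 : ℝ)..U, ∑ᶠ χ ∈ Irr (M ≃ₐ[K] M), (χ 1).re * ‖P φ χ u‖ ^ 2

/-- the upper limit of the mean square is at most `c` -/
def Upper (c : ℝ) : Prop := ∀ ε : ℝ, 0 < ε → ∀ᶠ U : ℝ in atTop, meanSquare φ U ≤ c + ε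

/-- `N(γ)`: the order at `1/2 + iγ` of the product of all `L(s, χ)` -/
noncomputable def total (γ : ℝ) : ℤ := ∑ᶠ χ ∈ Irr (M ≃ₐ[K] M), ordL φ χ (1 / 2 + γ * I)

/-- `E(u)`, the real part of the sum of all `P_χ` -/
noncomputable def E (u : ℝ) : ℝ := (∑ᶠ χ ∈ Irr (M ≃ₐ[K] M), P φ χ u).re

/-- the permutation character of `G` on `G/H`: the number of fixed points -/
noncomputable def perm (H : Subgroup (M ≃ₐ[K] M)) (g : M ≃ₐ[K] M) : ℚ :=
  (Nat.card {x : (M ≃ₐ[K] M) ⧸ H // g • x = x} : ℚ)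

/-- the sum of the irreducible characters is the combination with the coefficients `r` of the permutation characters -/
def Represents (r : Subgroup (M ≃ₐ[K] M) → ℚ) : Prop :=
  ∀ g, ∑ᶠ χ ∈ Irr (M ≃ₐ[K] M), χ g = ∑ᶠ H : Subgroup (M ≃ₐ[K] M), (r H : ℂ) * (perm H g : ℂ)

/-- `k(t) = (1-t)^(-1/2) ∑_H r_H (ξ'/ξ)(1/2 + (1-t)^(1/2))`, `ξ` for the fixed field of `H` -/
noncomputable def circle (r : Subgroup (M ≃ₐ[K] M) → ℚ) (t : ℂ) : ℂ :=
  (1 - t) ^ (-(1 / 2) : ℂ) * ∑ᶠ H : Subgroup (M ≃ₐ[K] M),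
    (r H : ℂ) * logDeriv (xi (IntermediateField.fixedField H)) (1 / 2 + (1 - t) ^ (1 / 2 : ℂ))

/-- `R(λ)` -/
noncomputable def R (r : Subgroup (M ≃ₐ[K] M) → ℚ) (lam : ℝ) : ℝ :=
  Real.exp (1 / (4 * Real.pi * I) * ∮ t in C(0, 1 / 2), circle r t * Complex.log (I0 (4 * lam / t))).re

open Classical in
/-- `χ` is induced from a linear character of a subgroup -/
def Monomial {G : Type} [Group G] (χ : G → ℂ) : Prop :=
  ∃ (H : Subgroup G) (ψ : H →* ℂˣ), ∀ g, χ g =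
    (Nat.card H : ℂ)⁻¹ * ∑ᶠ x : G, if h : x⁻¹ * g * x ∈ H then ((ψ ⟨x⁻¹ * g * x, h⟩ : ℂˣ) : ℂ) else 0

/-- the Frobenius-Schur indicator of `χ` is `-1` -/
def Symplectic {G : Type} [Group G] (χ : G → ℂ) : Prop := ∑ᶠ g : G, χ (g ^ 2) = -(Nat.card G : ℂ)

/-- (i): the multiset `Γ` of the positive ordinates is linearly independent over `ℚ` -/
def Independent : Prop := (∀ γ : ℝ, 0 < γ → total φ γ ≤ 1) ∧
  LinearIndependent ℚ (fun γ : {γ : ℝ // 0 < γ ∧ total φ γ ≠ 0} => (γ : ℝ))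

/-- (ii): `L(1/2, χ) ≠ 0` for the characters which are not symplectic -/
def CentralValues : Prop := ∀ χ ∈ Irr (M ≃ₐ[K] M), ¬ Symplectic χ → ordL φ χ (1 / 2) = 0

/-- (iii): the order of `L(s, χ)` at `1/2` is `0` or `1` for symplectic `χ` -/
def SymplecticValues : Prop := ∀ χ ∈ Irr (M ≃ₐ[K] M), Symplectic χ → ordL φ χ (1 / 2) = 0 ∨ ordL φ χ (1 / 2) = 1

/-- the number of the symplectic characters with odd order at `1/2` -/
noncomputable def nMinus : ℕ :=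
  {χ : (M ≃ₐ[K] M) → ℂ | χ ∈ Irr (M ≃ₐ[K] M) ∧ Symplectic χ ∧ Odd (ordL φ χ (1 / 2))}.ncard

/-- the mean of `exp (-λ E)` -/
noncomputable def expMean (lam U : ℝ) : ℝ := (1 / U) * ∫ u in (0 : ℝ)..U, Real.exp (-(lam * E φ u))

/-- `g(λ) = e^(2λ) / I₀(4λ)^(1/2)` -/
noncomputable def g (lam : ℝ) : ℝ := Real.exp (2 * lam) / Real.sqrt (I0 ((4 * lam : ℝ) : ℂ)).re

/-- the upper limit of the mean of `exp (-λ E)` is at most `c` -/
def UpperExp (lam c : ℝ) : Prop := ∀ ε : ℝ, 0 < ε → ∀ᶠ U : ℝ in atTop, expMean φ lam U ≤ c + ε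

variable [IsGalois K M]

lemma artinL_eq {χ : (M ≃ₐ[K] M) → ℂ} (hφ : ∀ v, Unramified M v → IsFrobenius v (φ v)) (hχ : χ ∈ Irr (M ≃ₐ[K] M)) :
    artinL φ χ = Pool.Agent.Q92.AR.artinL M χ := by
  classical
  funext s
  unfold artinL Pool.Agent.Q92.AR.artinL
  congr 1
  refine tsum_congr fun x => ?_
  unfold Pool.Agent.Q92.AR.artTerm
  by_cases hx : Unramified M x.1
  · rw [if_pos hx, if_pos (show Pool.Agent.Q92.AR.Unramified M x.1 from hx),
      Pool.Agent.Q284.SP.class_frob (fun g y => Pool.Agent.Q253.NF.G.irr_conj hχ g y) hx (hφ _ hx)]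
  · rw [if_neg hx, if_neg (show ¬ Pool.Agent.Q92.AR.Unramified M x.1 from hx)]

lemma ordL_eq {χ : (M ≃ₐ[K] M) → ℂ} (hφ : ∀ v, Unramified M v → IsFrobenius v (φ v)) (hχ : χ ∈ Irr (M ≃ₐ[K] M)) (s : ℂ) :
    ordL φ χ s = Pool.Agent.Q253.NF.G.ordL χ s := by
  unfold ordL Pool.Agent.Q253.NF.G.ordL
  rw [artinL_eq φ hφ hχ]
  rfl

lemma P_eq {χ : (M ≃ₐ[K] M) → ℂ} (hφ : ∀ v, Unramified M v → IsFrobenius v (φ v)) (hχ : χ ∈ Irr (M ≃ₐ[K] M)) (u : ℝ) :
    P φ χ u = Pool.Agent.Q253.NF.G.F χ u := by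
  classical
  unfold P Pool.Agent.Q253.NF.G.F Pool.Agent.Q253.NF.ks
  congr 1
  refine tsum_congr fun x => ?_
  by_cases hx : Unramified M x.1
  · rw [if_pos hx, if_pos (show x.1 ∈ {v : HeightOneSpectrum (𝓞 K) | Pool.Agent.Q92.AR.Unramified M v} from hx),
      Pool.Agent.Q284.SP.class_frob (fun g y => Pool.Agent.Q253.NF.G.irr_conj hχ g y) hx (hφ _ hx)]
  · rw [if_neg hx, if_neg (show ¬ x.1 ∈ {v : HeightOneSpectrum (𝓞 K) | Pool.Agent.Q92.AR.Unramified M v} from hx)]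

lemma meanSquare_eq (hφ : ∀ v, Unramified M v → IsFrobenius v (φ v)) : meanSquare φ = Pool.Agent.Q253.NF.G.D2 K M := by
  funext U
  unfold meanSquare Pool.Agent.Q253.NF.G.D2
  congr 1
  refine intervalIntegral.integral_congr fun u _ => ?_
  exact finsum_mem_congr rfl fun χ hχ => by rw [P_eq φ hφ hχ]

lemma total_eq (hφ : ∀ v, Unramified M v → IsFrobenius v (φ v)) (γ : ℝ) : total φ γ = Pool.Agent.Q253.NF.G.tot K M γ :=
  finsum_mem_congr rfl fun χ hχ => ordL_eq φ hφ hχ _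

lemma E_eq (hφ : ∀ v, Unramified M v → IsFrobenius v (φ v)) (u : ℝ) : -E φ u = Pool.Agent.Q253.NF.G.fE K M u := by
  unfold E Pool.Agent.Q253.NF.G.fE
  congr 2
  exact finsum_mem_congr rfl fun χ hχ => P_eq φ hφ hχ u

lemma rep_iff (r : Subgroup (M ≃ₐ[K] M) → ℚ) : Represents r ↔ Pool.Agent.Q253.NF.G.Rep K M r := by
  unfold Represents Pool.Agent.Q253.NF.G.Rep
  refine forall_congr' fun g => ?_
  have h : ∀ H : Subgroup (M ≃ₐ[K] M), Pool.Agent.Q92.RT.induced H 1 g = ((perm H g : ℚ) : ℂ) :=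
    fun H => Pool.Agent.Q182.NF.induced_perm H g
  simp only [h]
  exact Iff.rfl

/-- the conditions in the notation of the library -/
lemma two (hφ : ∀ v, Unramified M v → IsFrobenius v (φ v)) : (Artin φ ∧ Riemann φ) ↔
    (Pool.Agent.Q253.NF.G.AllOff K M ∧ Pool.Agent.Q253.NF.G.Nonneg K M) := by
  constructor
  · rintro ⟨hA, hR⟩
    refine ⟨fun χ hχ s hs h1 => ?_, fun χ hχ t => ?_⟩
    · rw [← ordL_eq φ hφ hχ]
      exact le_antisymm (hR χ hχ s hs h1) (hA χ hχ s (by linarith) h1)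
    · have h2 := hA χ hχ (1 / 2 + t * I) (by simp) (fun h => by
        have := congrArg Complex.re h
        norm_num at this)
      rw [ordL_eq φ hφ hχ] at h2
      exact h2
  · rintro ⟨hO, hN⟩
    refine ⟨fun χ hχ s hs h1 => ?_, fun χ hχ s hs h1 => ?_⟩
    · rw [ordL_eq φ hφ hχ]
      rcases lt_trichotomy s.re (1 / 2) with h2 | h2 | h2
      · obtain ⟨A⟩ := Pool.Agent.Q253.NF.G.exists_artD hχ
        have h3 := (Pool.Agent.Q253.NF.G.hyp_iff A hχ).2 (hO χ hχ) (s - 1 / 2) (by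
          rw [Complex.sub_re]
          norm_num
          intro h
          linarith)
        rw [Pool.Agent.Q253.NF.G.ordL_eq A hχ hs, h3, if_neg]
        · simp
        · rintro rfl
          norm_num at h2
      · have h3 : s = 1 / 2 + (s.im : ℂ) * I := by
          apply Complex.ext
          · simp [h2]
          · simp
        have h4 := hN χ hχ s.im
        rw [h3]
        exact h4
      · rw [hO χ hχ s h2 h1]
    · rw [ordL_eq φ hφ hχ, hO χ hχ s hs h1]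

lemma artin_iff (hφ : ∀ v, Unramified M v → IsFrobenius v (φ v)) : Artin φ ↔ Pool.Agent.Q253.NF.G.ArtinH K M :=
  forall_congr' fun χ => forall_congr' fun hχ => forall_congr' fun s => by rw [ordL_eq φ hφ hχ]

lemma half_eq : (1 / 2 : ℂ) + ((0 : ℝ) : ℂ) * I = 1 / 2 := by
  rw [Complex.ofReal_zero, zero_mul, add_zero]

lemma o_eq {χ : (M ≃ₐ[K] M) → ℂ} (hφ : ∀ v, Unramified M v → IsFrobenius v (φ v)) (hχ : χ ∈ Irr (M ≃ₐ[K] M)) :
    Pool.Agent.Q253.NF.G.o χ 0 = ordL φ χ (1 / 2) := by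
  unfold Pool.Agent.Q253.NF.G.o
  rw [half_eq, ordL_eq φ hφ hχ]

lemma riemann_iff (hφ : ∀ v, Unramified M v → IsFrobenius v (φ v)) (hA : Artin φ) :
    Riemann φ ↔ Pool.Agent.Q253.NF.G.AllOff K M :=
  ⟨fun h => ((two φ hφ).1 ⟨hA, h⟩).1, fun h => ((two φ hφ).2 ⟨h, Pool.Agent.Q253.NF.G.nonneg_of_artin
    ((artin_iff φ hφ).1 hA)⟩).2⟩

lemma li_iff (hφ : ∀ v, Unramified M v → IsFrobenius v (φ v)) : Independent φ ↔ Pool.Agent.Q253.NF.G.LI K M := by
  unfold Independent Pool.Agent.Q253.NF.G.LI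
  refine and_congr (forall_congr' fun γ => by rw [total_eq φ hφ]) (Pool.Agent.Q253.NF.G.li_congr fun γ => by rw [total_eq φ hφ])

lemma cen_iff (hφ : ∀ v, Unramified M v → IsFrobenius v (φ v)) : CentralValues φ ↔ Pool.Agent.Q253.NF.G.Cen K M :=
  forall_congr' fun χ => forall_congr' fun hχ => by rw [o_eq φ hφ hχ]; exact Iff.rfl

lemma sym_iff (hφ : ∀ v, Unramified M v → IsFrobenius v (φ v)) : SymplecticValues φ ↔ Pool.Agent.Q253.NF.G.Sym3 K M := by
  refine forall_congr' fun χ => forall_congr' fun hχ => forall_congr' fun _ => ?_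
  rw [o_eq φ hφ hχ]
  constructor
  · rintro (h | h)
    · rw [h]; decide
    · rw [h]; decide
  · intro h
    split_ifs at h
    · exact Or.inl h
    · exact Or.inr h

lemma nMinus_eq (hφ : ∀ v, Unramified M v → IsFrobenius v (φ v)) : nMinus φ = Pool.Agent.Q253.NF.G.nMinus K M := by
  unfold nMinus Pool.Agent.Q253.NF.G.nMinus
  congr 1
  ext χ
  simp only [Set.mem_ofPred_eq]
  exact and_congr_right fun hχ => by rw [o_eq φ hφ hχ]; exact Iff.rfl

lemma expMean_eq (hφ : ∀ v, Unramified M v → IsFrobenius v (φ v)) : expMean φ = Pool.Agent.Q253.NF.G.ME K M := by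
  funext lam U
  unfold expMean Pool.Agent.Q253.NF.G.ME
  congr 1
  refine intervalIntegral.integral_congr fun u _ => ?_
  change Real.exp (-(lam * E φ u)) = Real.exp (lam * Pool.Agent.Q253.NF.G.fE K M u)
  rw [← E_eq φ hφ, mul_neg]

lemma upper_iff (hφ : ∀ v, Unramified M v → IsFrobenius v (φ v)) : (Artin φ ∧ Riemann φ ∧ ∀ χ ∈ Irr (M ≃ₐ[K] M), ∀ t : ℝ,
    ordL φ χ (1 / 2 + t * I) ≤ 1) ↔ Upper φ (V M) := by
  have h1 := (Pool.Agent.Q253.NF.G.main1 (K := K) (M := M)).2.2.1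
  have h2 : Upper φ (V M) ↔ Pool.Agent.Q253.NF.G.Upper2 K M (Pool.Agent.Q253.NF.VF M) := by
    unfold Upper Pool.Agent.Q253.NF.G.Upper2
    rw [meanSquare_eq φ hφ]
    exact Iff.rfl
  have h3 : (∀ χ ∈ Irr (M ≃ₐ[K] M), ∀ t : ℝ, ordL φ χ (1 / 2 + t * I) ≤ 1) ↔ Pool.Agent.Q253.NF.G.Simple K M :=
    forall_congr' fun χ => forall_congr' fun hχ => forall_congr' fun t => by rw [ordL_eq φ hφ hχ]; exact Iff.rfl
  rw [h2, ← h1, h3, ← and_assoc, ← and_assoc, two φ hφ]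

/-- (i), (ii), (iii) imply that the zeros on the line are simple -/
lemma simple_of (hφ : ∀ v, Unramified M v → IsFrobenius v (φ v)) (hA : Artin φ) (hI : Independent φ) (hC : CentralValues φ)
    (hS : SymplecticValues φ) : ∀ χ ∈ Irr (M ≃ₐ[K] M), ∀ t : ℝ, ordL φ χ (1 / 2 + t * I) ≤ 1 := by
  intro χ hχ t
  have hN := Pool.Agent.Q253.NF.G.nonneg_of_artin ((artin_iff φ hφ).1 hA)
  rw [ordL_eq φ hφ hχ]
  change Pool.Agent.Q253.NF.G.o χ t ≤ 1
  rcases eq_or_ne t 0 with h0 | h0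
  · rw [h0, o_eq φ hφ hχ]
    by_cases h1 : Symplectic χ
    · rcases hS χ hχ h1 with h | h <;> rw [h] <;> norm_num
    · rw [hC χ hχ h1]
      norm_num
  · have h1 : Pool.Agent.Q253.NF.G.o χ t ≤ Pool.Agent.Q253.NF.G.tot K M t := by
      rw [Pool.Agent.Q253.NF.G.tot_eq]
      exact Finset.single_le_sum (f := fun χ : (M ≃ₐ[K] M) → ℂ => Pool.Agent.Q253.NF.G.o χ t)
        (fun ψ hψ => hN ψ (Pool.Agent.H541R3.ART.mem_irrF.1 hψ) t) (Pool.Agent.H541R3.ART.mem_irrF.2 hχ)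
    have h2 : Pool.Agent.Q253.NF.G.tot K M t = Pool.Agent.Q253.NF.G.tot K M |t| := by
      rcases abs_choice t with h | h
      · rw [h]
      · rw [h, Pool.Agent.Q253.NF.G.tot_neg]
    have h3 := hI.1 |t| (abs_pos.2 h0)
    rw [total_eq φ hφ] at h3
    rw [h2] at h1
    exact h1.trans h3

end

/-- **One inequality for the primes decides the Riemann hypothesis and the linear independence for a Galois extension.** -/
theorem result (K M : Type) [Field K] [NumberField K] [Field M] [NumberField M] [Algebra K M] [IsGalois K M]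
    (φ : HeightOneSpectrum (𝓞 K) → M ≃ₐ[K] M) (hφ : ∀ v, Unramified M v → IsFrobenius v (φ v)) :
    (∀ χ ∈ Irr (M ≃ₐ[K] M), ∃ f, Continues f (artinL φ χ)) ∧ (∃ r : Subgroup (M ≃ₐ[K] M) → ℚ, Represents r) ∧
    ((∀ χ ∈ Irr (M ≃ₐ[K] M), Monomial χ) → Artin φ) ∧
    (Artin φ → ∀ lam : ℝ, 0 < lam → (Riemann φ ↔ ∃ C : ℝ, ∀ᶠ U : ℝ in atTop, expMean φ lam U ≤ C)) ∧
    ∀ r : Subgroup (M ≃ₐ[K] M) → ℚ, Represents r → ∀ lam : ℝ, 0 < lam → lam ≤ 1 / 8 →
      (Artin φ →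
        ((Riemann φ ∧ Independent φ ∧ CentralValues φ ∧ SymplecticValues φ) ↔ UpperExp φ lam (R r lam * g lam ^ nMinus φ)) ∧
        ((Riemann φ ∧ Independent φ ∧ CentralValues φ ∧ SymplecticValues φ) ↔
          Tendsto (expMean φ lam) atTop (𝓝 (R r lam * g lam ^ nMinus φ))) ∧
        (Riemann φ → ∀ ε : ℝ, 0 < ε → ∀ᶠ U : ℝ in atTop, R r lam * g lam ^ nMinus φ - ε ≤ expMean φ lam U)) ∧
      ((Artin φ ∧ Riemann φ ∧ Independent φ ∧ CentralValues φ ∧ SymplecticValues φ) ↔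
        (Upper φ (V M) ∧ UpperExp φ lam (R r lam * g lam ^ nMinus φ))) := by
  have hmain : ∀ r : Subgroup (M ≃ₐ[K] M) → ℚ, Represents r → ∀ lam : ℝ, 0 < lam → lam ≤ 1 / 8 → Artin φ →
        ((Riemann φ ∧ Independent φ ∧ CentralValues φ ∧ SymplecticValues φ) ↔ UpperExp φ lam (R r lam * g lam ^ nMinus φ)) ∧
        ((Riemann φ ∧ Independent φ ∧ CentralValues φ ∧ SymplecticValues φ) ↔
          Tendsto (expMean φ lam) atTop (𝓝 (R r lam * g lam ^ nMinus φ))) ∧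
        (Riemann φ → ∀ ε : ℝ, 0 < ε → ∀ᶠ U : ℝ in atTop, R r lam * g lam ^ nMinus φ - ε ≤ expMean φ lam U) := by
    intro r hr lam h0 h8 hA
    have h1 := Pool.Agent.Q253.NF.G.main4 ((artin_iff φ hφ).1 hA) ((rep_iff r).1 hr) h0 h8
    unfold UpperExp
    rw [expMean_eq φ hφ, nMinus_eq φ hφ, riemann_iff φ hφ hA, li_iff φ hφ, cen_iff φ hφ, sym_iff φ hφ]
    exact h1
  refine ⟨fun χ hχ => ?_, ?_, fun h => ?_, fun hA lam h0 => ?_, fun r hr lam h0 h8 => ⟨hmain r hr lam h0 h8, ?_, ?_⟩⟩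
  · rw [artinL_eq φ hφ hχ]
    exact Pool.Agent.Q253.NF.G.exists_cont hχ
  · obtain ⟨r, hr⟩ := Pool.Agent.Q253.NF.G.exists_rep K M
    exact ⟨r, (rep_iff r).2 hr⟩
  · exact (artin_iff φ hφ).2 (Pool.Agent.Q253.NF.G.artin_of_mono h)
  · rw [riemann_iff φ hφ hA, expMean_eq φ hφ]
    exact Pool.Agent.Q253.NF.G.off_iff_exp ((artin_iff φ hφ).1 hA) h0
  · rintro ⟨hA, hR, hI, hC, hS⟩
    exact ⟨(upper_iff φ hφ).1 ⟨hA, hR, simple_of φ hφ hA hI hC hS⟩, (hmain r hr lam h0 h8 hA).1.1 ⟨hR, hI, hC, hS⟩⟩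
  · rintro ⟨h1, h2⟩
    obtain ⟨hA, -, -⟩ := (upper_iff φ hφ).2 h1
    exact ⟨hA, (hmain r hr lam h0 h8 hA).1.2 h2⟩

end Pool.Agent.Results.MP_3b6604_nt.GaloisOneInequality
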